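import Pool.Agent.N318.Plus.Main

/-! # No exponential orthonormal basis for two crossing segments -/

set_option autoImplicit false

namespace Pool.Agent.Results.MP_476b1b_an.NoExponentialBasis

open MeasureTheory Set Pool.Agent.N318.Plus
open scoped ENNReal InnerProductSpace

/-- Let `-1/2 ≤ t < 0` (the Plus Space `t = -1/2` included) and let
`mu t = m_I ⊗ δ_0 + δ_0 ⊗ m_I` with `I = [t, t + 1]` and `m_I` the Lebesgue measure on `I`.
For every set `Λ` in the plane: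

* the normalised exponentials `e_λ / √2`, `λ ∈ Λ`, are not an orthonormal basis of `L²(mu t)`;
* if the exponentials `e_λ`, `λ ∈ Λ`, are pairwise orthogonal in `L²(mu t)`, then they are not
  complete: some nonzero `F ∈ L²(mu t)` is orthogonal to all of them. -/
theorem result (t : ℝ) (ht : -(1 / 2) ≤ t) (ht0 : t < 0) (Λ : Set (ℝ × ℝ)) :
    (¬ ∃ b : HilbertBasis Λ ℂ (Lp ℂ 2 (mu t)), ∀ l : Λ,
      ((b l : Lp ℂ 2 (mu t)) : ℝ × ℝ → ℂ)
        =ᵐ[mu t] fun z => ((Real.sqrt 2)⁻¹ : ℂ) * expo l z) ∧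
    ((∀ l ∈ Λ, ∀ l' ∈ Λ, l ≠ l' →
        ∫ z, expo l z * (starRingEnd ℂ) (expo l' z) ∂(mu t) = 0) →
      ∃ F : ℝ × ℝ → ℂ, MemLp F 2 (mu t) ∧ ¬ (F =ᵐ[mu t] 0) ∧
        ∀ l ∈ Λ, ∫ z, F z * (starRingEnd ℂ) (expo l z) ∂(mu t) = 0) := by
  refine ⟨fun ⟨b, hb⟩ => main t ht ht0 Λ b hb, fun horth => ?_⟩
  have hs2 : ((Real.sqrt 2 : ℝ) : ℂ) * ((Real.sqrt 2 : ℝ) : ℂ) = 2 := by
    rw [← Complex.ofReal_mul, Real.mul_self_sqrt (by norm_num)]
    norm_num
  have hs0 : ((Real.sqrt 2 : ℝ) : ℂ) ≠ 0 := by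
    intro h
    rw [h] at hs2
    norm_num at hs2
  have hmem : ∀ l : ℝ × ℝ, MemLp (fun z => ((Real.sqrt 2)⁻¹ : ℂ) * expo l z) 2 (mu t) := by
    intro l
    refine MemLp.of_bound (by have := expo_meas l; fun_prop) (‖((Real.sqrt 2)⁻¹ : ℂ)‖)
      (Filter.Eventually.of_forall fun z => ?_)
    rw [norm_mul, expo_norm, mul_one]
  set v : Λ → Lp ℂ 2 (mu t) := fun l => (hmem l).toLp _ with hv
  have hvl : ∀ l : Λ, ((v l : Lp ℂ 2 (mu t)) : ℝ × ℝ → ℂ)
      =ᵐ[mu t] fun z => ((Real.sqrt 2)⁻¹ : ℂ) * expo l z := fun l => (hmem l).coeFn_toLp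
  have hinner : ∀ l l' : Λ, (⟪v l, v l'⟫_ℂ : ℂ)
      = (1 / 2) * ∫ z, expo l' z * (starRingEnd ℂ) (expo l z) ∂(mu t) := by
    intro l l'
    rw [L2.inner_def, ← integral_const_mul]
    apply integral_congr_ae
    filter_upwards [hvl l, hvl l'] with z h1 h2
    rw [h1, h2, RCLike.inner_apply]
    simp only [map_mul, map_inv₀, Complex.conj_ofReal]
    field_simp
    linear_combination (-(expo l' z) * (starRingEnd ℂ) (expo l z)) * hs2
  have hon : Orthonormal ℂ v := by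
    rw [orthonormal_iff_ite]
    intro l l'
    rw [hinner]
    by_cases h : l = l'
    · subst h
      rw [if_pos rfl]
      have h1 : ∫ z, expo l z * (starRingEnd ℂ) (expo l z) ∂(mu t)
          = phi t (l.1.1 - l.1.1) + phi t (l.1.2 - l.1.2) := by
        rw [← inner_expo_expo]
        congr 1
        funext z
        ring
      rw [h1, sub_self, sub_self, phi_zero]
      norm_num
    · rw [if_neg h, horth l' l'.2 l l.2 (fun h' => h (Subtype.ext h'.symm)), mul_zero]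
  by_cases hbot : (Submodule.span ℂ (Set.range v))ᗮ = ⊥
  · exfalso
    refine main t ht ht0 Λ (HilbertBasis.mkOfOrthogonalEqBot hon hbot) (fun l => ?_)
    rw [HilbertBasis.coe_mkOfOrthogonalEqBot]
    exact hvl l
  · obtain ⟨F, hF, hF0⟩ := Submodule.exists_mem_ne_zero_of_ne_bot hbot
    refine ⟨F, Lp.memLp F, fun h => hF0 ((Lp.eq_zero_iff_ae_eq_zero).mpr h), fun l hl => ?_⟩
    have h1 : (⟪v ⟨l, hl⟩, F⟫_ℂ : ℂ) = 0 :=
      (Submodule.mem_orthogonal _ _).mp hF _ (Submodule.subset_span ⟨⟨l, hl⟩, rfl⟩)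
    rw [L2.inner_def] at h1
    have h2 : ∫ z, (⟪(v ⟨l, hl⟩ : Lp ℂ 2 (mu t)) z, F z⟫_ℂ : ℂ) ∂(mu t)
        = ((Real.sqrt 2)⁻¹ : ℂ) * ∫ z, F z * (starRingEnd ℂ) (expo l z) ∂(mu t) := by
      rw [← integral_const_mul]
      apply integral_congr_ae
      filter_upwards [hvl ⟨l, hl⟩] with z h3
      rw [h3, RCLike.inner_apply]
      simp only [map_mul, map_inv₀, Complex.conj_ofReal]
      ring
    rw [h2] at h1
    rcases mul_eq_zero.mp h1 with h4 | h4
    · exact absurd (inv_eq_zero.mp h4) hs0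
    · exact h4

end Pool.Agent.Results.MP_476b1b_an.NoExponentialBasis
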